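import Pool.Agent.Lib.MP_a2ed14_ag.Final

/-!
Graded Betti numbers of the derivation module of a weakly chordal graphic arrangement.
-/

namespace Pool.Agent.Results.MP_a2ed14_ag.WeaklyChordalBetti

open Pool.Agent.Lib.MP_a2ed14_ag

/-- For every field `K` and every weakly chordal graph `G` on a finite vertex set `V`, the
derivation module `D(A(G))` has a minimal graded free resolution
`0 → ⨁_r S(-d₁ r) → ⨁_i S(-d₀ i) → D(A(G)) → 0` in which, for every `j`,
* the number `β_{0,j}` of `i` with `d₀ i = j` is the dimension of the space of `K`-linear havens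
  of order `j + 1` of `G`, and
* the number `β_{1,j}` of `r` with `d₁ r = j` is `β_{0,j}` minus
  `∑_{|S| ≤ j} (-1)^(j-|S|) binom(|V|-1-|S|, j-|S|) c(G - S)`, with `c(G - S)` the number of
  connected components of `G - S`. -/
theorem result {K V : Type*} [Field K] [Fintype V] [DecidableEq V] (G : SimpleGraph V)
    (hG : WeaklyChordal G) :
    ∃ (n₀ n₁ : ℕ) (d₀ : Fin n₀ → ℕ) (d₁ : Fin n₁ → ℕ)
      (ε : (Fin n₀ → MvPolynomial V K) →ₗ[MvPolynomial V K]
        Derivation K (MvPolynomial V K) (MvPolynomial V K))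
      (δ : (Fin n₁ → MvPolynomial V K) →ₗ[MvPolynomial V K] (Fin n₀ → MvPolynomial V K)),
      IsMinimalGradedResolution (derivationModule K G) d₀ d₁ ε δ ∧
      (∀ j : ℕ, Fintype.card {i // d₀ i = j} = Module.finrank K (havens K G j)) ∧
      (∀ j : ℕ, (Fintype.card {r // d₁ r = j} : ℤ) = Module.finrank K (havens K G j) -
        ∑ S ∈ (Finset.univ : Finset (Finset V)).filter (fun S => S.card ≤ j),
          (-1 : ℤ) ^ (j - S.card) * ((Fintype.card V - 1 - S.card).choose (j - S.card)) *
            (comps G S).card) := by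
  obtain ⟨⟨n₀, n₁, d₀, d₁, g, A, hR, hP⟩, hgen⟩ :=
    main_induction (K := K) eulerP eulerP_top (fun G x y S A h => eulerP_step h) G
      (WC_of_weaklyChordal hG)
  refine ⟨n₀, n₁, d₀, d₁, _, _, hR.toDeriv, fun j => hR.card_eq hgen j, fun j => ?_⟩
  rw [← coeff_eulerP, ← hP, Polynomial.coeff_sub, coeff_gp, coeff_gp, ← hR.card_eq hgen j]
  ring

end Pool.Agent.Results.MP_a2ed14_ag.WeaklyChordalBetti
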